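import Pool.Agent.H93.GT.Targets
import Pool.Agent.H29.ET.GCT
import Pool.Agent.H18.SC.CNB

/-!
# Numbers of points with given signs
-/

open Filter Topology

namespace Pool.Agent.H19.GT

open Pool.Agent.H93.GT Pool.Agent.H85.SC Pool.Agent.H87.Synth
open Pool.Agent.H29.SC (ct ct_mul ct_leg ct_dvd ct_congr coprime_pr pr_odd leg_add leg_cases
  coprime_four)
open Pool.Agent.H29.ET (card_win leg_per dvd_PP coprime_six)
open Pool.Agent.H18.SC (PP_pos pr_half)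

/-- counting one pattern over a period -/
theorem ct_pat (m A : ℕ) (hA : 0 < A) (hco : ∀ j, Nat.Coprime A (pr m j)) (c : ℤ)
    (e0 e1 e2 : ℤ) (h0 : e0 = 1 ∨ e0 = -1) (h1 : e1 = 1 ∨ e1 = -1)
    (h2 : e2 = 1 ∨ e2 = -1) :
    ct (fun x => (A : ℤ) ∣ (x : ℤ) - c ∧ chi m 0 x = e0 ∧ chi m 1 x = e1 ∧ chi m 2 x = e2)
      (A * PP m) =
      (pr m 0 - 1) / 2 * ((pr m 1 - 1) / 2) * ((pr m 2 - 1) / 2) := by
  have hp : ∀ j, 0 < pr m j := fun j => (pr_prime m j).pos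
  have hmm : ∀ (a b x : ℕ), x % (a * b) % b = x % b := fun a b x =>
    Nat.mod_mod_of_dvd x (Dvd.intro_left a rfl)
  have hmm' : ∀ (a b x : ℕ), x % (a * b) % a = x % a := fun a b x =>
    Nat.mod_mod_of_dvd x (Dvd.intro b rfl)
  have hf : ∀ x : ℕ, (A : ℤ) ∣ ((x % A : ℕ) : ℤ) - c ↔ (A : ℤ) ∣ (x : ℤ) - c := by
    intro x
    have h3 : (A : ℤ) ∣ (x : ℤ) - ((x % A : ℕ) : ℤ) := by
      have h4 := Nat.mod_add_div x A
      refine ⟨((x / A : ℕ) : ℤ), ?_⟩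
      have h5 : ((x % A : ℕ) : ℤ) + (A : ℤ) * ((x / A : ℕ) : ℤ) = x := by
        exact_mod_cast h4
      linarith
    constructor
    · intro h
      have := dvd_add h h3
      rwa [show ((x % A : ℕ) : ℤ) - c + ((x : ℤ) - ((x % A : ℕ) : ℤ)) = x - c by ring] at this
    · intro h
      have := dvd_sub h h3
      rwa [show (x : ℤ) - c - ((x : ℤ) - ((x % A : ℕ) : ℤ)) = ((x % A : ℕ) : ℤ) - c by ring]
        at this
  have e1' : ct (fun x => (chi m 0 x = e0 ∧ chi m 1 x = e1) ∧ chi m 2 x = e2) (PP m) =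
      (pr m 0 - 1) / 2 * ((pr m 1 - 1) / 2) * ((pr m 2 - 1) / 2) := by
    unfold PP
    rw [ct_mul (P := fun x : ℕ => chi m 0 x = e0 ∧ chi m 1 x = e1) (Q := fun x : ℕ => chi m 2 x = e2)
      (Nat.mul_pos (hp 0) (hp 1)) (hp 2) (Nat.Coprime.mul_left (coprime_pr (by norm_num))
        (coprime_pr (by norm_num))) (by
        intro x
        rw [← leg_per m 0 e0 (x % (pr m 0 * pr m 1)), hmm', leg_per,
          ← leg_per m 1 e1 (x % (pr m 0 * pr m 1)), hmm, leg_per]) (leg_per m 2 e2),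
      ct_mul (P := fun x : ℕ => chi m 0 x = e0) (Q := fun x : ℕ => chi m 1 x = e1) (hp 0) (hp 1)
        (coprime_pr (by norm_num)) (leg_per m 0 e0) (leg_per m 1 e1)]
    have k0 := ct_leg (pr m 0) (pr_odd m 0) e0 h0
    have k1 := ct_leg (pr m 1) (pr_odd m 1) e1 h1
    have k2 := ct_leg (pr m 2) (pr_odd m 2) e2 h2
    unfold chi
    rw [k0, k1, k2]
  have e2' : ct (fun x => (A : ℤ) ∣ (x : ℤ) - c) A = 1 := ct_dvd A hA c
  rw [ct_congr (Q := fun x : ℕ => (A : ℤ) ∣ (x : ℤ) - c ∧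
      ((chi m 0 x = e0 ∧ chi m 1 x = e1) ∧ chi m 2 x = e2)) _ (fun x => by tauto),
    ct_mul (P := fun x : ℕ => (A : ℤ) ∣ (x : ℤ) - c)
      (Q := fun x : ℕ => (chi m 0 x = e0 ∧ chi m 1 x = e1) ∧ chi m 2 x = e2)
      hA (PP_pos m) _ hf _, e1', e2', one_mul]
  · unfold PP
    exact Nat.Coprime.mul_right (Nat.Coprime.mul_right (hco 0) (hco 1)) (hco 2)
  · intro x
    have q0 : x % PP m % pr m 0 = x % pr m 0 := Nat.mod_mod_of_dvd _ (dvd_PP m).1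
    have q1 : x % PP m % pr m 1 = x % pr m 1 := Nat.mod_mod_of_dvd _ (dvd_PP m).2.1
    have q2 : x % PP m % pr m 2 = x % pr m 2 := Nat.mod_mod_of_dvd _ (dvd_PP m).2.2
    rw [← leg_per m 0 e0 (x % PP m), q0, leg_per, ← leg_per m 1 e1 (x % PP m), q1, leg_per,
      ← leg_per m 2 e2 (x % PP m), q2, leg_per]

theorem Mo_pos (n : ℕ) : 0 < Mo n := by
  unfold Mo
  positivity

theorem coprime_Mo (n m j : ℕ) : Nat.Coprime (6 * Mo n) (pr m j) := by
  unfold Mo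
  exact Nat.Coprime.mul_left (coprime_six m j) (coprime_four m j _)

/-- counting one pattern in a window -/
theorem card_pat (n m : ℕ) (X L : ℕ) (hL : 6 * Mo n * PP m ∣ L) (c : ℤ)
    (e0 e1 e2 : ℤ) (h0 : e0 = 1 ∨ e0 = -1) (h1 : e1 = 1 ∨ e1 = -1) (h2 : e2 = 1 ∨ e2 = -1) :
    ((Finset.Ico (X : ℤ) (X + L)).filter (fun z =>
      (6 * (Mo n : ℤ)) ∣ z - c ∧ chi m 0 z = e0 ∧ chi m 1 z = e1 ∧ chi m 2 z = e2)).card =
      L / (6 * Mo n * PP m) * ((pr m 0 - 1) / 2 * ((pr m 1 - 1) / 2) * ((pr m 2 - 1) / 2)) := by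
  have hA : 0 < 6 * Mo n := Nat.mul_pos (by norm_num) (Mo_pos n)
  have hk := ct_pat m (6 * Mo n) hA (coprime_Mo n m) c e0 e1 e2 h0 h1 h2
  have hcast : ((6 * Mo n : ℕ) : ℤ) = 6 * (Mo n : ℤ) := by push_cast; ring
  rw [hcast] at hk
  rw [card_win (Q := fun z => (6 * (Mo n : ℤ)) ∣ z - c ∧ chi m 0 z = e0 ∧ chi m 1 z = e1 ∧
    chi m 2 z = e2) hL _ (X : ℤ), hk]
  intro z
  have q0 : ∀ j, pr m j ∣ PP m → chi m j (z + (6 * Mo n * PP m : ℕ)) = chi m j z := by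
    intro j hj
    obtain ⟨k, hk⟩ := hj
    have : ((6 * Mo n * PP m : ℕ) : ℤ) = (pr m j : ℤ) * (6 * Mo n * k) := by
      rw [hk]; push_cast; ring
    unfold chi
    rw [this, leg_add]
  rw [q0 0 (dvd_PP m).1, q0 1 (dvd_PP m).2.1, q0 2 (dvd_PP m).2.2]
  have h3 : (6 * (Mo n : ℤ)) ∣ ((6 * Mo n * PP m : ℕ) : ℤ) := by
    push_cast
    exact Dvd.intro _ rfl
  have h4 : (6 * (Mo n : ℤ)) ∣ z + ((6 * Mo n * PP m : ℕ) : ℤ) - c ↔
      (6 * (Mo n : ℤ)) ∣ z - c := by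
    rw [show z + ((6 * Mo n * PP m : ℕ) : ℤ) - c = (z - c) + ((6 * Mo n * PP m : ℕ) : ℤ) by ring]
    exact Int.dvd_add_left h3
  rw [h4]

/-- the numbers of the points -/
theorem card_FA {d : ℕ → ℝ} (P : Pos d) {n i : ℕ} (hv : Valid n i)
    (hL : 6 * Mo n * PP (lvl n i) ∣ P.L (slot n i)) (s : ℤ) (hs : s = 1 ∨ s = -1) :
    (P.FA n i s).card = P.cnt n i ∧ (P.FS n i s).card = P.cnt n i ∧
      (P.FD n i s).card = 2 * P.cnt n i := by
  classical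
  set m := lvl n i with hm
  set a := lg i with ha
  set c : ℤ := cc n + lc i * 4 ^ Nat.size n + Mo n * 4 with hc
  have hlr : ∀ z, lr (lc i) n 4 z ↔ (6 * (Mo n : ℤ)) ∣ z - c := by
    intro z
    unfold lr
    rw [hc, show z - (cc n + lc i * 4 ^ Nat.size n + Mo n * 4) =
      z - cc n - lc i * 4 ^ Nat.size n - Mo n * 4 by ring]
  have hsg : ((-1 : ℤ) ^ a = 1 ∨ (-1 : ℤ) ^ a = -1) := neg_one_pow_eq_or ℤ a
  have hcase : ∀ j z, chi m j z = 0 ∨ chi m j z = 1 ∨ chi m j z = -1 := fun j z => leg_cases _ z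
  have hpat := fun e0 e1 e2 h0 h1 h2 =>
    card_pat n m (P.X (slot n i)) (P.L (slot n i)) hL c e0 e1 e2 h0 h1 h2
  have hsm : ∀ (e : ℤ), (e = 1 ∨ e = -1) → ((-1) ^ a * e = 1 ∨ (-1) ^ a * e = -1) := by
    intro e he
    rcases hsg with h | h <;> rcases he with h' | h' <;> rw [h, h'] <;> norm_num
  have hinv : ∀ e x : ℤ, (-1) ^ a * x = e ↔ x = (-1) ^ a * e := by
    intro e x
    rcases hsg with h | h <;> rw [h] <;> constructor <;> intro h' <;> linarith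
  have hne : ∀ e : ℤ, (e = 1 ∨ e = -1) → e ≠ 0 := by
    rintro e (rfl | rfl) <;> norm_num
  have hReg : ∀ z, P.Reg n i z ↔ (P.X (slot n i) : ℤ) ≤ z ∧
      z < P.X (slot n i) + P.L (slot n i) ∧
      (6 * (Mo n : ℤ)) ∣ z - c ∧ chi m 0 z ≠ 0 ∧ chi m 1 z ≠ 0 ∧ chi m 2 z ≠ 0 := by
    intro z
    unfold Pos.Reg
    rw [hlr z]
    tauto
  have hbase : ∀ (Q : ℤ → Prop) [DecidablePred Q] (e0 e1 e2 : ℤ), (e0 = 1 ∨ e0 = -1) →
      (e1 = 1 ∨ e1 = -1) → (e2 = 1 ∨ e2 = -1) →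
      (∀ z, P.Reg n i z → (Q z ↔ chi m 0 z = e0 ∧ chi m 1 z = e1 ∧ chi m 2 z = e2)) →
      ((P.RS n i).filter Q).card = P.cnt n i := by
    intro Q _ e0 e1 e2 h0 h1 h2 hQ
    have h10 := hpat e0 e1 e2 h0 h1 h2
    unfold Pos.cnt
    rw [← hm, ← h10]
    congr 1
    ext z
    simp only [Pos.RS, Finset.mem_filter, Finset.mem_Ico]
    constructor
    · rintro ⟨⟨h3, h4⟩, h5⟩
      have h6 := (hReg z).mp h4
      exact ⟨h3, h6.2.2.1, (hQ z h4).mp h5⟩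
    · rintro ⟨h3, h4, h5⟩
      have h6 : P.Reg n i z := (hReg z).mpr ⟨h3.1, h3.2, h4, by rw [h5.1]; exact hne _ h0,
        by rw [h5.2.1]; exact hne _ h1, by rw [h5.2.2]; exact hne _ h2⟩
      exact ⟨⟨h3, h6⟩, (hQ z h6).mpr h5⟩
  have hs' : -s = 1 ∨ -s = -1 := by
    rcases hs with rfl | rfl <;> norm_num
  refine ⟨?_, ?_, ?_⟩
  · unfold Pos.FA
    apply hbase _ s s ((-1) ^ a * s) hs hs (hsm s hs)
    intro z _
    unfold s1 s2 s3
    rw [← hm, ← ha, hinv]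
  · unfold Pos.FS
    apply hbase _ s s ((-1) ^ a * (-s)) hs hs (hsm _ hs')
    intro z _
    unfold s1 s2 s3
    rw [← hm, ← ha, hinv]
  · have h1 : (P.FD n i s) =
        (P.RS n i).filter (fun z => s1 n i z = 1 ∧ s2 n i z = -1 ∧ s3 n i z = s) ∪
        (P.RS n i).filter (fun z => s1 n i z = -1 ∧ s2 n i z = 1 ∧ s3 n i z = s) := by
      unfold Pos.FD
      rw [← Finset.filter_or]
      apply Finset.filter_congr
      intro z hz
      simp only [Pos.RS, Finset.mem_filter] at hz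
      have h2 := (hReg z).mp hz.2
      unfold s1 s2
      rw [← hm]
      rcases hcase 0 z with h3 | h3 | h3
      · exact absurd h3 h2.2.2.2.1
      all_goals
        rcases hcase 1 z with h4 | h4 | h4
        · exact absurd h4 h2.2.2.2.2.1
        all_goals
          rw [h3, h4]
          norm_num
    rw [h1, Finset.card_union_of_disjoint, hbase _ 1 (-1) ((-1) ^ a * s) (by norm_num)
      (by norm_num) (hsm s hs), hbase _ (-1) 1 ((-1) ^ a * s) (by norm_num)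
      (by norm_num) (hsm s hs)]
    · ring
    · intro z _
      unfold s1 s2 s3
      rw [← hm, ← ha, hinv]
    · intro z _
      unfold s1 s2 s3
      rw [← hm, ← ha, hinv]
    · rw [Finset.disjoint_filter]
      rintro z _ ⟨h2, _⟩ ⟨h3, _⟩
      rw [h2] at h3
      norm_num at h3

theorem gcn (h1 : T_GSZ) : T_GCN := by
  intro d P n i hv
  obtain ⟨hd, -⟩ := (h1 d P).2.2.2.2.1 n i hv
  have hcards := fun s hs => card_FA P hv hd s hs
  refine ⟨?_, hcards, ?_⟩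
  · obtain ⟨a0, b0⟩ := pr_half (lvl n i) 0
    obtain ⟨a1, b1⟩ := pr_half (lvl n i) 1
    obtain ⟨a2, b2⟩ := pr_half (lvl n i) 2
    unfold Pos.cnt
    have hq := Nat.mul_pos (Nat.mul_pos a0 a1) a2
    refine Nat.mul_pos ?_ hq
    exact Nat.div_pos (Nat.le_of_dvd (P.hL _).1 hd)
      (Nat.mul_pos (Nat.mul_pos (by norm_num) (Mo_pos n)) (PP_pos _))
  · obtain ⟨a0, b0⟩ := pr_half (lvl n i) 0
    obtain ⟨a1, b1⟩ := pr_half (lvl n i) 1
    obtain ⟨a2, b2⟩ := pr_half (lvl n i) 2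
    have hq : 0 < (pr (lvl n i) 0 - 1) / 2 * ((pr (lvl n i) 1 - 1) / 2) *
        ((pr (lvl n i) 2 - 1) / 2) := Nat.mul_pos (Nat.mul_pos a0 a1) a2
    have hD : 0 < 6 * Mo n * PP (lvl n i) :=
      Nat.mul_pos (Nat.mul_pos (by norm_num) (Mo_pos n)) (PP_pos _)
    obtain ⟨k, hk⟩ := hd
    have hL0 := (P.hL (slot n i)).1
    have hk0 : 0 < k := by
      rcases Nat.eq_zero_or_pos k with h0 | h0
      · rw [h0, mul_zero] at hk
        omega
      · exact h0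
    have hdiv : P.L (slot n i) / (6 * Mo n * PP (lvl n i)) = k := by
      rw [hk]
      exact Nat.mul_div_cancel_left _ hD
    have hcnt : P.cnt n i = k * ((pr (lvl n i) 0 - 1) / 2 * ((pr (lvl n i) 1 - 1) / 2) *
        ((pr (lvl n i) 2 - 1) / 2)) := by
      unfold Pos.cnt
      rw [hdiv]
    have hbound : PP (lvl n i) ≤ 27 * ((pr (lvl n i) 0 - 1) / 2 * ((pr (lvl n i) 1 - 1) / 2) *
        ((pr (lvl n i) 2 - 1) / 2)) := by
      unfold PP
      calc pr (lvl n i) 0 * pr (lvl n i) 1 * pr (lvl n i) 2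
          ≤ (3 * ((pr (lvl n i) 0 - 1) / 2)) * (3 * ((pr (lvl n i) 1 - 1) / 2)) *
            (3 * ((pr (lvl n i) 2 - 1) / 2)) :=
            Nat.mul_le_mul (Nat.mul_le_mul b0 b1) b2
        _ = _ := by ring
    generalize (pr (lvl n i) 0 - 1) / 2 * ((pr (lvl n i) 1 - 1) / 2) *
        ((pr (lvl n i) 2 - 1) / 2) = q at hq hcnt hbound ⊢
    have hqR : (0 : ℝ) < (q : ℝ) := by exact_mod_cast hq
    have hkR : (0 : ℝ) < (k : ℝ) := by exact_mod_cast hk0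
    have hMR : (0 : ℝ) < (Mo n : ℝ) := by exact_mod_cast Mo_pos n
    have e1 : (P.L (slot n i) : ℝ) / P.cnt n i = 6 * Mo n * PP (lvl n i) / (q : ℝ) := by
      rw [hcnt, hk]
      push_cast
      field_simp
    refine ⟨e1, ?_⟩
    rw [e1, div_le_iff₀ hqR]
    have hb : (PP (lvl n i) : ℝ) ≤ 27 * (q : ℝ) := by exact_mod_cast hbound
    calc 6 * (Mo n : ℝ) * PP (lvl n i) ≤ 6 * (Mo n : ℝ) * (27 * (q : ℝ)) := by gcongr
      _ = 162 * Mo n * q := by ring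

end Pool.Agent.H19.GT
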