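import Pool.Agent.H93.GT.Targets

/-!
# The relation
-/

open Filter Topology

namespace Pool.Agent.H19.GT

open Pool.Agent.H93.GT Pool.Agent.H85.SC Pool.Agent.H87.Synth

lemma lab_of_mem (h1 : T_GDJ) {d : ℕ → ℝ} (P : Pos d) (S : Set ℕ) {c : GC} {z : ℤ}
    (hz : z ∈ P.cls S c) : P.lab S z = Sum.inl c := by
  classical
  have hex : ∃ c, z ∈ P.cls S c := ⟨c, hz⟩
  unfold Pos.lab
  rw [dif_pos hex]
  congr 1
  exact (h1 d P).1 S _ _ z hex.choose_spec hz

lemma lab_of_not {d : ℕ → ℝ} (P : Pos d) (S : Set ℕ) {z : ℤ}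
    (hz : ¬ ∃ c, z ∈ P.cls S c) : P.lab S z = Sum.inr z := by
  classical
  unfold Pos.lab
  rw [dif_neg hz]

theorem grel_iff (h1 : T_GDJ) {d : ℕ → ℝ} (P : Pos d) (S : Set ℕ) (m n : ℤ) :
    P.grel S m n ↔ m = n ∨ ∃ c, m ∈ P.cls S c ∧ n ∈ P.cls S c := by
  have h0 : P.grel S m n ↔ P.lab S m = P.lab S n := Iff.rfl
  rw [h0]
  constructor
  · intro h
    by_cases hm : ∃ c, m ∈ P.cls S c
    · obtain ⟨c, hc⟩ := hm
      rw [lab_of_mem h1 P S hc] at h
      by_cases hn : ∃ c, n ∈ P.cls S c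
      · obtain ⟨c', hc'⟩ := hn
        rw [lab_of_mem h1 P S hc'] at h
        have h2 : c = c' := Sum.inl.inj h
        right
        exact ⟨c, hc, h2 ▸ hc'⟩
      · rw [lab_of_not P S hn] at h
        exact absurd h (by simp)
    · rw [lab_of_not P S hm] at h
      by_cases hn : ∃ c, n ∈ P.cls S c
      · obtain ⟨c', hc'⟩ := hn
        rw [lab_of_mem h1 P S hc'] at h
        exact absurd h (by simp)
      · rw [lab_of_not P S hn] at h
        left
        exact Sum.inr.inj h
  · rintro (h | ⟨c, hm, hn⟩)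
    · rw [h]
    · rw [lab_of_mem h1 P S hm, lab_of_mem h1 P S hn]

theorem grl (h1 : T_GDJ) : T_GRL := by
  classical
  intro d P S
  refine ⟨fun m n => grel_iff h1 P S m n, ?_, ?_⟩
  · intro n
    by_cases hn : ∃ c, n ∈ P.cls S c
    · obtain ⟨c, hc⟩ := hn
      refine ((P.cls S c).finite_toSet.insert n).subset ?_
      intro m hm
      have hm' : P.grel S n m := hm
      rw [grel_iff h1 P S] at hm'
      rcases hm' with h | ⟨c', h2, h3⟩
      · rw [← h]
        exact Set.mem_insert _ _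
      · have h4 := (h1 d P).1 S c c' n hc h2
        rw [h4]
        exact Set.mem_insert_of_mem _ (Finset.mem_coe.2 h3)
    · refine (Set.finite_singleton n).subset ?_
      intro m hm
      have hm' : P.grel S n m := hm
      rw [grel_iff h1 P S] at hm'
      rcases hm' with h | ⟨c', h2, h3⟩
      · rw [h]
        exact Set.mem_singleton _
      · exact absurd ⟨c', h2⟩ hn
  · intro f
    rw [mem_Amax]
    constructor
    · intro h c z hz z' hz'
      exact h z z' ((grel_iff h1 P S z z').2 (Or.inr ⟨c, hz, hz'⟩))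
    · intro h m n hmn
      rw [grel_iff h1 P S] at hmn
      rcases hmn with h2 | ⟨c, hm, hn⟩
      · rw [h2]
      · exact h c m hm n hn

end Pool.Agent.H19.GT
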