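import Pool.Agent.H93.GT.Targets
import Pool.Agent.H29.SC.ROO

/-!
# The sum over the roots of unity
-/

open Filter Topology

namespace Pool.Agent.H19.GT

open Pool.Agent.H93.GT Pool.Agent.H85.SC Pool.Agent.H87.Synth
open Pool.Agent.H29.SC (ze_gap)

theorem gro (hA : T_GAL) : T_GRO := by
  intro D hD X L hN hDN w hw K
  have hD' : (0 : ℝ) < D := by exact_mod_cast hD
  have hN0 : (0 : ℝ) < L 0 := by exact_mod_cast (hN 0).1
  have hDN' : (D : ℝ) ^ 2 ≤ L 0 := by exact_mod_cast hDN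
  set f : ℕ → ℝ := fun k =>
    ‖∑ a ∈ Finset.range K, (-1) ^ a * avg (X a) (L a) (fun _ => 1) (w * ze D ^ k)‖ with hf
  have hnorm : ∀ k, ‖w * ze D ^ k‖ = 1 := fun k => norm_mul_ze hw D k
  have hbig : ∀ k, 1 / (D : ℝ) ≤ ‖w * ze D ^ k - 1‖ → f k ≤ 3 / D := by
    intro k hk
    have hne : w * ze D ^ k ≠ 1 := by
      intro h
      rw [h, sub_self, norm_zero] at hk
      have : 0 < 1 / (D : ℝ) := by positivity
      linarith
    refine ((hA X L hN _ (hnorm k) K).2 hne).trans ?_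
    have h1 : (D : ℝ) ≤ L 0 * ‖w * ze D ^ k - 1‖ := by
      calc (D : ℝ) = D ^ 2 * (1 / D) := by field_simp
        _ ≤ L 0 * ‖w * ze D ^ k - 1‖ := by gcongr
    gcongr
  by_cases hex : ∃ k0 ∈ Finset.range D, ‖w * ze D ^ k0 - 1‖ < 1 / D
  · obtain ⟨k0, hk0, hlt⟩ := hex
    rw [← Finset.add_sum_erase _ _ hk0]
    have h1 : f k0 ≤ 8 := (hA X L hN _ (hnorm k0) K).1
    have h2 : ∑ k ∈ (Finset.range D).erase k0, f k ≤
        ∑ _k ∈ (Finset.range D).erase k0, 3 / (D : ℝ) := by
      apply Finset.sum_le_sum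
      intro k hk
      rw [Finset.mem_erase] at hk
      exact hbig k (ze_gap hD hw (Finset.mem_range.mp hk0) (Finset.mem_range.mp hk.2)
        (Ne.symm hk.1) hlt)
    have h3 : ∑ _k ∈ (Finset.range D).erase k0, 3 / (D : ℝ) ≤ 3 := by
      rw [Finset.sum_const, nsmul_eq_mul]
      have h4 : (((Finset.range D).erase k0).card : ℝ) ≤ D := by
        exact_mod_cast (Finset.card_erase_le.trans (Finset.card_range D).le)
      calc (((Finset.range D).erase k0).card : ℝ) * (3 / D) ≤ D * (3 / D) := by gcongr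
        _ = 3 := by field_simp
    linarith
  · push Not at hex
    calc ∑ k ∈ Finset.range D, f k ≤ ∑ _k ∈ Finset.range D, 3 / (D : ℝ) :=
          Finset.sum_le_sum (fun k hk => hbig k (hex k hk))
      _ = 3 := by
          rw [Finset.sum_const, nsmul_eq_mul, Finset.card_range]
          field_simp
      _ ≤ 12 := by norm_num

end Pool.Agent.H19.GT
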